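import Pool.Agent.W783.Perc.Stmts

set_option autoImplicit false

open MeasureTheory Set

namespace Pool.Agent.W400.PC

open Pool.Agent.W783.PC

noncomputable section

theorem bern_false (q : unitInterval) : bern q {false} = ENNReal.ofReal (1 - (q : ℝ)) := by
  simp [bern]

theorem bern_true (q : unitInterval) : bern q {true} = ENNReal.ofReal (q : ℝ) := by
  simp [bern]

theorem pm_pi {ι : Type} (r : ι → unitInterval) (F : Finset ι) (t : ι → Set Bool) :
    pm r (Set.pi F t) = ∏ c ∈ F, bern (r c) (t c) := by
  unfold pm
  exact Measure.infinitePi_pi _ fun i _ => MeasurableSet.of_discrete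

theorem closed_eq {ι : Type} (T : Set ι) :
    {ω : ι → Bool | ∀ c ∈ T, ω c = false} = Set.pi T fun _ => {false} := by
  ext ω
  simp [Set.mem_pi]

theorem s_closed : S_closed := by
  intro ι r T hT w H hw hH
  have key : ENNReal.ofReal (Real.exp (-H)) ≤ pm r {ω | ∀ c ∈ T, ω c = false} := by
    rw [closed_eq]
    unfold pm
    rw [Measure.infinitePi_pi_of_countable _ hT (fun i _ => MeasurableSet.of_discrete),
      ENNReal.tprod_eq_iInf_prod (by simp [prob_le_one])]
    refine le_iInf fun s => ?_
    have h1 : ∏ i ∈ s, bern (r i) {false} = ENNReal.ofReal (∏ i ∈ s, (1 - (r i : ℝ))) := by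
      rw [ENNReal.ofReal_prod_of_nonneg]
      · exact Finset.prod_congr rfl fun i _ => bern_false _
      · intro i _
        linarith [(r i).2.2]
    rw [h1]
    apply ENNReal.ofReal_le_ofReal
    have h2 : ∑ i ∈ s, w i ≤ H := by
      classical
      have := hH (s.map (Function.Embedding.subtype _)) (by
        intro x hx
        rw [Finset.mem_coe, Finset.mem_map] at hx
        obtain ⟨y, _, rfl⟩ := hx
        exact y.2)
      rwa [Finset.sum_map] at this
    calc Real.exp (-H) ≤ Real.exp (∑ i ∈ s, -w i) := by
          apply Real.exp_le_exp.mpr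
          rw [Finset.sum_neg_distrib]
          linarith
      _ = ∏ i ∈ s, Real.exp (-w i) := Real.exp_sum _ _
      _ ≤ _ := Finset.prod_le_prod (fun i _ => (Real.exp_pos _).le) fun i _ => hw i i.2
  rw [Measure.real]
  exact (ENNReal.ofReal_le_iff_le_toReal (measure_ne_top _ _)).1 key

theorem s_closedF : S_closedF := by
  intro ι r F w hw
  have h1 : {ω : ι → Bool | ∀ c ∈ F, ω c = false} = Set.pi F fun _ => {false} := by
    ext ω
    simp [Set.mem_pi]
  rw [Measure.real, h1, pm_pi, ENNReal.toReal_prod]
  have h2 : ∀ c ∈ F, (bern (r c) {false}).toReal = 1 - (r c : ℝ) := by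
    intro c _
    rw [bern_false, ENNReal.toReal_ofReal (by linarith [(r c).2.2])]
  rw [Finset.prod_congr rfl h2]
  calc ∏ c ∈ F, (1 - (r c : ℝ)) ≤ ∏ _c ∈ F, Real.exp (-w) :=
        Finset.prod_le_prod (fun c _ => by linarith [(r c).2.2]) hw
    _ = Real.exp (-(w * F.card)) := by
        rw [Finset.prod_const, ← Real.exp_nat_mul]
        congr 1
        ring

theorem s_depmeas : S_depmeas := by
  intro ι F A hA
  have h1 : A = (fun (ω : ι → Bool) (c : F) => ω c) ⁻¹'
      ((fun (ω : ι → Bool) (c : F) => ω c) '' A) := by
    ext ω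
    constructor
    · intro h
      exact ⟨ω, h, rfl⟩
    · rintro ⟨ω', h, h'⟩
      refine (hA ω' ω fun c hc => ?_).1 h
      exact congrFun h' ⟨c, hc⟩
  rw [h1]
  have h2 : Measurable (fun (ω : ι → Bool) (c : F) => ω c) := by fun_prop
  exact h2 (Set.toFinite _).measurableSet

theorem s_approx : S_approx := by
  intro ι r A hA η hη
  have hd : (pm r).MeasureDense (measurableCylinders fun _ : ι => Bool) :=
    Measure.MeasureDense.of_generateFrom_isSetAlgebra_finite (pm r)
      isSetAlgebra_measurableCylinders generateFrom_measurableCylinders.symm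
  obtain ⟨t, ht, hlt⟩ := hd.approx A hA (measure_ne_top _ _) η hη
  obtain ⟨F, S, hS, rfl⟩ := (mem_measurableCylinders _).1 ht
  refine ⟨F, cylinder F S, ?_, ?_, ?_⟩
  · intro ω ω' h
    rw [mem_cylinder, mem_cylinder]
    have : F.restrict ω = F.restrict ω' := by
      funext c
      exact h c c.2
    rw [this]
  · rw [Measure.real]
    refine ENNReal.toReal_le_of_le_ofReal hη.le (le_trans (measure_mono ?_) hlt.le)
    exact Set.subset_union_left
  · rw [Measure.real]
    refine ENNReal.toReal_le_of_le_ofReal hη.le (le_trans (measure_mono ?_) hlt.le)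
    exact Set.subset_union_right

theorem s_equiv : S_equiv := by
  intro ι r τ A hA
  have hm : Measurable (fun (ω : ι → Bool) (c : ι) => ω (τ c)) := by fun_prop
  have h : (pm r).map (fun (ω : ι → Bool) (c : ι) => ω (τ c)) = pm fun c => r (τ c) := by
    unfold pm
    apply Measure.eq_infinitePi
    intro s t ht
    have key : ∀ t : ι → Set Bool, Measure.map (fun (ω : ι → Bool) (c : ι) => ω (τ c))
        (Measure.infinitePi fun c => bern (r c)) (Set.pi s t) = ∏ i ∈ s, bern (r (τ i)) (t i) := by
      intro t
      have e : ∀ c, t (τ.symm (τ c)) = t c := fun c => by rw [Equiv.symm_apply_apply]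
      rw [Measure.map_apply hm (MeasurableSet.pi s.countable_toSet fun i _ =>
        MeasurableSet.of_discrete)]
      have h1 : (fun (ω : ι → Bool) (c : ι) => ω (τ c)) ⁻¹' (Set.pi s t) =
          Set.pi ((s.map τ.toEmbedding : Finset ι) : Set ι) fun c => t (τ.symm c) := by
        ext ω
        simp only [Set.mem_preimage, Set.mem_pi, Finset.mem_coe, Finset.mem_map]
        constructor
        · rintro h _ ⟨c, hc, rfl⟩
          show ω (τ c) ∈ t (τ.symm (τ c))
          rw [e]
          exact h c hc
        · intro h c hc
          have := h (τ c) ⟨c, hc, rfl⟩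
          rwa [e] at this
      rw [h1, Measure.infinitePi_pi _ (fun i _ => MeasurableSet.of_discrete), Finset.prod_map]
      refine Finset.prod_congr rfl fun c _ => ?_
      show bern (r (τ c)) (t (τ.symm (τ c))) = _
      rw [e]
    exact key t
  rw [← h, Measure.map_apply hm hA]
  rfl

/-! ### The coupling with uniform variables -/

/-- Product of uniform measures. -/
def um (ι : Type) : Measure (ι → unitInterval) := Measure.infinitePi fun _ => volume

instance (ι : Type) : IsProbabilityMeasure (um ι) := by
  unfold um; infer_instance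

/-- The configuration of the uniform variables. -/
def cf {ι : Type} (r : ι → unitInterval) (U : ι → unitInterval) : ι → Bool :=
  fun c => decide (U c < r c)

theorem meas_dec (q : unitInterval) : Measurable fun u : unitInterval => decide (u < q) := by
  have h : MeasurableSet {u : unitInterval | u < q} := measurableSet_Iio
  refine measurable_to_bool ?_
  have h1 : (fun u : unitInterval => decide (u < q)) ⁻¹' {true} = {u | u < q} := by
    ext u; simp
  rw [h1]
  exact h

theorem meas_cf {ι : Type} (r : ι → unitInterval) : Measurable (cf r) :=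
  measurable_pi_lambda _ fun c => (meas_dec (r c)).comp (measurable_pi_apply c)

theorem map_dec (q : unitInterval) :
    (volume : Measure unitInterval).map (fun u => decide (u < q)) = bern q := by
  have h1 : (fun u : unitInterval => decide (u < q)) ⁻¹' {true} = Set.Iio q := by
    ext u; simp
  have h2 : (fun u : unitInterval => decide (u < q)) ⁻¹' {false} = Set.Ici q := by
    ext u; simp
  refine Measure.ext_of_singleton fun b => ?_
  cases b
  · rw [Measure.map_apply (meas_dec q) (measurableSet_singleton _), h2, bern_false,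
      unitInterval.volume_Ici]
  · rw [Measure.map_apply (meas_dec q) (measurableSet_singleton _), h1, bern_true,
      unitInterval.volume_Iio]

theorem map_cf {ι : Type} (r : ι → unitInterval) : (um ι).map (cf r) = pm r := by
  unfold um pm cf
  rw [Measure.infinitePi_map_pi (fun _ : ι => (volume : Measure unitInterval))
    (f := fun c u => decide (u < r c)) fun c => meas_dec (r c)]
  simp only [map_dec]

theorem pm_eq {ι : Type} (r : ι → unitInterval) {A : Set (ι → Bool)} (hA : MeasurableSet A) :
    pm r A = um ι (cf r ⁻¹' A) := by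
  rw [← map_cf, Measure.map_apply (meas_cf r) hA]

theorem s_mono : S_mono := by
  intro ι r r' A hr hA hm
  rw [pm_eq r hm, pm_eq r' hm]
  refine measure_mono fun U hU => hA _ _ (fun c hc => ?_) hU
  unfold cf at hc ⊢
  rw [decide_eq_true_eq] at hc ⊢
  exact lt_of_lt_of_le hc (hr c)

theorem vol_xor (q q' : unitInterval) :
    volume {u : unitInterval | decide (u < q) ≠ decide (u < q')} ≤
      ENNReal.ofReal |(q : ℝ) - q'| := by
  rcases le_total q q' with h | h
  · have h1 : {u : unitInterval | decide (u < q) ≠ decide (u < q')} ⊆ Set.Ico q q' := by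
      intro u hu
      rw [Set.mem_ofPred_eq] at hu
      by_cases h2 : u < q
      · exact absurd (by simp [h2, lt_of_lt_of_le h2 h]) hu
      · by_cases h3 : u < q'
        · exact ⟨not_lt.1 h2, h3⟩
        · exact absurd (by simp [h2, h3]) hu
    refine (measure_mono h1).trans ?_
    rw [unitInterval.volume_Ico, abs_sub_comm, abs_of_nonneg (by
      have : (q : ℝ) ≤ q' := h
      linarith)]
  · have h1 : {u : unitInterval | decide (u < q) ≠ decide (u < q')} ⊆ Set.Ico q' q := by
      intro u hu
      rw [Set.mem_ofPred_eq] at hu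
      by_cases h2 : u < q'
      · exact absurd (by simp [h2, lt_of_lt_of_le h2 h]) hu
      · by_cases h3 : u < q
        · exact ⟨not_lt.1 h2, h3⟩
        · exact absurd (by simp [h2, h3]) hu
    refine (measure_mono h1).trans ?_
    rw [unitInterval.volume_Ico, abs_of_nonneg (by
      have : (q' : ℝ) ≤ q := h
      linarith)]

theorem um_eval {ι : Type} (c : ι) {S : Set unitInterval} (hS : MeasurableSet S) :
    um ι {U | U c ∈ S} = volume S := by
  unfold um
  have := Measure.infinitePi_map_eval (fun _ : ι => (volume : Measure unitInterval)) c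
  conv_rhs => rw [← this]
  rw [Measure.map_apply (measurable_pi_apply c) hS]
  rfl

theorem s_tv : S_tv := by
  intro ι r r' F A hA
  have hm : MeasurableSet A := s_depmeas ι F A hA
  have e1 : ∀ q, (pm q).real A = (um ι).real (cf q ⁻¹' A) := fun q => by
    rw [Measure.real, Measure.real, pm_eq q hm]
  rw [e1, e1]
  refine (abs_measureReal_sub_le_measureReal_symmDiff ((meas_cf r hm).nullMeasurableSet)
    ((meas_cf r' hm).nullMeasurableSet)).trans ?_
  have hsub : (symmDiff (cf r ⁻¹' A) (cf r' ⁻¹' A)) ⊆
      ⋃ c ∈ F, {U : ι → unitInterval | U c ∈ {u : unitInterval | decide (u < r c) ≠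
        decide (u < r' c)}} := by
    intro U hU
    by_contra hc
    simp only [Set.mem_iUnion, not_exists] at hc
    have h1 : cf r U ∈ A ↔ cf r' U ∈ A := by
      apply hA
      intro c hcF
      by_contra h2
      exact hc c hcF h2
    rcases hU with ⟨h2, h3⟩ | ⟨h2, h3⟩
    · exact h3 (h1.1 h2)
    · exact h3 (h1.2 h2)
  have hmeas : ∀ c, MeasurableSet {u : unitInterval | decide (u < r c) ≠ decide (u < r' c)} := by
    intro c
    exact (measurableSet_eq_fun (meas_dec (r c)) (meas_dec (r' c))).compl
  calc (um ι).real (symmDiff (cf r ⁻¹' A) (cf r' ⁻¹' A)) ≤ (um ι).real (⋃ c ∈ F,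
        {U : ι → unitInterval | U c ∈ {u : unitInterval | decide (u < r c) ≠
        decide (u < r' c)}}) := measureReal_mono hsub (measure_ne_top _ _)
    _ ≤ ∑ c ∈ F, (um ι).real {U : ι → unitInterval | U c ∈ {u : unitInterval |
        decide (u < r c) ≠ decide (u < r' c)}} := measureReal_biUnion_finset_le _ _
    _ ≤ _ := by
        refine Finset.sum_le_sum fun c _ => ?_
        rw [Measure.real, um_eval c (hmeas c)]
        exact ENNReal.toReal_le_of_le_ofReal (abs_nonneg _) (vol_xor _ _)

end

end Pool.Agent.W400.PC
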